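import Mathlib

/-!
# Weak fp-envelopes over the divided power algebra over `ℤ` are not unique
-/

set_option autoImplicit false

namespace Pool.Agent.Results.MP_c3bf79_al.EnvelopesNotUnique

/-- A `ℤ`-graded module over the divided power algebra `D = ⨁ ℤ x^{[n]}` over `ℤ`: abelian groups
`M_j` (`j ∈ ℤ`) with additive operators `x^{[n]} : M_i → M_{i+n}` such that `x^{[0]} = id` and
`x^{[m]} x^{[n]} = (n+m choose n) x^{[n+m]}`. -/
structure GrMod where
  /-- the homogeneous components -/
  comp : ℤ → Type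
  [grp : ∀ j, AddCommGroup (comp j)]
  /-- the action of `x^{[n]}`, from degree `i` to degree `j = i + n` -/
  act : ∀ (n : ℕ) {i j : ℤ}, i + n = j → comp i → comp j
  act_add : ∀ (n : ℕ) {i j : ℤ} (h : i + n = j) (v w : comp i),
    act n h (v + w) = act n h v + act n h w
  act_zero : ∀ {i : ℤ} (h : i + (0 : ℕ) = i) (v : comp i), act 0 h v = v
  act_act : ∀ (n m : ℕ) {i j k : ℤ} (h : i + n = j) (h' : j + m = k)
    (h'' : i + (n + m : ℕ) = k) (v : comp i),
    act m h' (act n h v) = ((n + m).choose n) • act (n + m) h'' v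

attribute [instance] GrMod.grp

/-- Degree-preserving `D`-linear maps. -/
structure Hom (A B : GrMod) where
  /-- the homogeneous components -/
  map : ∀ j, A.comp j → B.comp j
  map_add : ∀ j (v w : A.comp j), map j (v + w) = map j v + map j w
  comm : ∀ (n : ℕ) {i j : ℤ} (h : i + n = j) (v : A.comp i),
    map j (A.act n h v) = B.act n h (map i v)

/-- Isomorphism of graded `D`-modules. -/
def Isomorphic (A B : GrMod) : Prop := ∃ f : Hom A B, ∀ j, Function.Bijective (f.map j)

/-- The action as a homomorphism. -/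
def GrMod.actHom (A : GrMod) (n : ℕ) {i j : ℤ} (h : i + n = j) : A.comp i →+ A.comp j :=
  AddMonoidHom.mk' (A.act n h) (A.act_add n h)

/-- A component of a map as a homomorphism. -/
def Hom.hom {A B : GrMod} (f : Hom A B) (j : ℤ) : A.comp j →+ B.comp j :=
  AddMonoidHom.mk' (f.map j) (f.map_add j)

/-- A graded submodule. -/
structure Sub (A : GrMod) where
  /-- the homogeneous components -/
  comp : ∀ j, AddSubgroup (A.comp j)
  act_mem : ∀ (n : ℕ) {i j : ℤ} (h : i + n = j) (v : A.comp i), v ∈ comp i → A.act n h v ∈ comp j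

/-- The action on a graded submodule. -/
def Sub.actS {A : GrMod} (U : Sub A) (n : ℕ) {i j : ℤ} (h : i + n = j) (v : U.comp i) : U.comp j :=
  ⟨A.act n h v.1, U.act_mem n h v.1 v.2⟩

lemma Sub.actS_add {A : GrMod} (U : Sub A) (n : ℕ) {i j : ℤ} (h : i + n = j) (v w : U.comp i) :
    U.actS n h (v + w) = U.actS n h v + U.actS n h w := Subtype.ext (A.act_add n h v.1 w.1)

lemma Sub.actS_zero {A : GrMod} (U : Sub A) {i : ℤ} (h : i + (0 : ℕ) = i) (v : U.comp i) :
    U.actS 0 h v = v := Subtype.ext (A.act_zero h v.1)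

lemma Sub.actS_act {A : GrMod} (U : Sub A) (n m : ℕ) {i j k : ℤ} (h : i + n = j) (h' : j + m = k)
    (h'' : i + (n + m : ℕ) = k) (v : U.comp i) :
    U.actS m h' (U.actS n h v) = ((n + m).choose n) • U.actS (n + m) h'' v :=
  Subtype.ext (A.act_act n m h h' h'' v.1)

/-- A graded submodule as a graded module. -/
def Sub.toGrMod {A : GrMod} (U : Sub A) : GrMod where
  comp j := U.comp j
  act := U.actS
  act_add := U.actS_add
  act_zero := U.actS_zero
  act_act := U.actS_act

lemma Sub.le_comap {A : GrMod} (U : Sub A) (n : ℕ) {i j : ℤ} (h : i + n = j) :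
    U.comp i ≤ AddSubgroup.comap (A.actHom n h) (U.comp j) := fun v hv => U.act_mem n h v hv

/-- The action on a quotient. -/
def Sub.actQ {A : GrMod} (U : Sub A) (n : ℕ) {i j : ℤ} (h : i + n = j) :
    (A.comp i ⧸ U.comp i) → (A.comp j ⧸ U.comp j) :=
  QuotientAddGroup.map _ _ (A.actHom n h) (U.le_comap n h)

lemma Sub.actQ_mk {A : GrMod} (U : Sub A) (n : ℕ) {i j : ℤ} (h : i + n = j) (v : A.comp i) :
    U.actQ n h (QuotientAddGroup.mk v) = QuotientAddGroup.mk (A.act n h v) := rfl

lemma Sub.actQ_add {A : GrMod} (U : Sub A) (n : ℕ) {i j : ℤ} (h : i + n = j)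
    (v w : A.comp i ⧸ U.comp i) : U.actQ n h (v + w) = U.actQ n h v + U.actQ n h w :=
  map_add (QuotientAddGroup.map _ _ (A.actHom n h) (U.le_comap n h)) v w

lemma Sub.actQ_zero {A : GrMod} (U : Sub A) {i : ℤ} (h : i + (0 : ℕ) = i)
    (v : A.comp i ⧸ U.comp i) : U.actQ 0 h v = v := by
  obtain ⟨v, rfl⟩ := QuotientAddGroup.mk_surjective v
  rw [U.actQ_mk, A.act_zero h v]

lemma Sub.actQ_act {A : GrMod} (U : Sub A) (n m : ℕ) {i j k : ℤ} (h : i + n = j) (h' : j + m = k)
    (h'' : i + (n + m : ℕ) = k) (v : A.comp i ⧸ U.comp i) :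
    U.actQ m h' (U.actQ n h v) = ((n + m).choose n) • U.actQ (n + m) h'' v := by
  obtain ⟨v, rfl⟩ := QuotientAddGroup.mk_surjective v
  rw [U.actQ_mk, U.actQ_mk, U.actQ_mk, A.act_act n m h h' h'' v]
  rfl

/-- The quotient by a graded submodule. -/
def Sub.quotient {A : GrMod} (U : Sub A) : GrMod where
  comp j := A.comp j ⧸ U.comp j
  act := U.actQ
  act_add := U.actQ_add
  act_zero := U.actQ_zero
  act_act := U.actQ_act

lemma Hom.range_mem {A B : GrMod} (f : Hom A B) (n : ℕ) {i j : ℤ} (h : i + n = j) (v : B.comp i)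
    (hv : v ∈ (f.hom i).range) : B.act n h v ∈ (f.hom j).range := by
  obtain ⟨w, rfl⟩ := hv
  exact ⟨A.act n h w, f.comm n h w⟩

/-- The image of a map. -/
def Hom.range {A B : GrMod} (f : Hom A B) : Sub B := ⟨fun j => (f.hom j).range, f.range_mem⟩

/-- The cokernel of a map. -/
def Hom.coker {A B : GrMod} (f : Hom A B) : GrMod := f.range.quotient

/-- The subgroup `G` if `P` holds, and `0` otherwise. -/
def ifSub (G : Type) [AddCommGroup G] (P : Prop) : AddSubgroup G where
  carrier := {v | P ∨ v = 0}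
  zero_mem' := Or.inr rfl
  add_mem' := by
    rintro v w (h | rfl) (h' | rfl)
    · exact Or.inl h
    · exact Or.inl h
    · exact Or.inl h'
    · exact Or.inr (add_zero 0)
  neg_mem' := by
    rintro v (h | rfl)
    · exact Or.inl h
    · exact Or.inr neg_zero

lemma trunc_mem (n : ℤ) (A : GrMod) (m : ℕ) {i j : ℤ} (h : i + m = j) (v : A.comp i)
    (hv : v ∈ ifSub (A.comp i) (n ≤ i)) : A.act m h v ∈ ifSub (A.comp j) (n ≤ j) := by
  rcases hv with h' | rfl
  · left; have : (0 : ℤ) ≤ m := Int.natCast_nonneg m; omega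
  · right; exact map_zero (A.actHom m h)

/-- The truncation `τ_{≥ n}(A) = ⨁_{j ≥ n} A_j`, a graded submodule. -/
def trunc (n : ℤ) (A : GrMod) : Sub A := ⟨fun j => ifSub (A.comp j) (n ≤ j), trunc_mem n A⟩

lemma multi (N n k : ℕ) :
    N.choose n * (N - n).choose k = N.choose k * (N - k).choose n := by
  have h1 := Nat.choose_mul (n := N) (k := n + k) (s := n) (Nat.le_add_right n k)
  have h2 := Nat.choose_mul (n := N) (k := n + k) (s := k) (Nat.le_add_left k n)
  rw [Nat.add_sub_cancel_left] at h1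
  rw [Nat.add_sub_cancel] at h2
  rw [← h1, ← h2]
  congr 1
  exact Nat.choose_symm_add

/-- Vectors of integers with `c_t = 0` when `j < d_t`. -/
def coeffs {ι : Type} (d : ι → ℤ) (j : ℤ) : AddSubgroup (ι → ℤ) where
  carrier := {c | ∀ t, j < d t → c t = 0}
  zero_mem' := fun _ _ => rfl
  add_mem' := by intro a b ha hb t ht; simp [ha t ht, hb t ht]
  neg_mem' := by intro a ha t ht; simp [ha t ht]

/-- `x^{[n]}` sends `(c_t)` in degree `i` to `((j - d_t choose n) c_t)` in degree `j = i + n`. -/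
def freeFun {ι : Type} (d : ι → ℤ) (n : ℕ) (j : ℤ) (c : ι → ℤ) : ι → ℤ :=
  fun t => ((j - d t).toNat.choose n : ℤ) * c t

lemma freeFun_mem {ι : Type} (d : ι → ℤ) (n : ℕ) {i j : ℤ} (h : i + n = j) (c : coeffs d i) :
    freeFun d n j c.1 ∈ coeffs d j := by
  intro t ht
  have : c.1 t = 0 := c.2 t (by have : (0 : ℤ) ≤ n := Int.natCast_nonneg n; omega)
  simp [freeFun, this]

/-- The action on a free module. -/
def freeAct {ι : Type} (d : ι → ℤ) (n : ℕ) {i j : ℤ} (h : i + n = j) (c : coeffs d i) :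
    coeffs d j := ⟨freeFun d n j c.1, freeFun_mem d n h c⟩

lemma freeAct_add {ι : Type} (d : ι → ℤ) (n : ℕ) {i j : ℤ} (h : i + n = j) (v w : coeffs d i) :
    freeAct d n h (v + w) = freeAct d n h v + freeAct d n h w := by
  apply Subtype.ext
  funext t
  exact mul_add _ _ _

lemma freeAct_zero {ι : Type} (d : ι → ℤ) {i : ℤ} (h : i + (0 : ℕ) = i) (v : coeffs d i) :
    freeAct d 0 h v = v := by
  apply Subtype.ext
  funext t
  show ((i - d t).toNat.choose 0 : ℤ) * v.1 t = v.1 t
  simp

lemma freeAct_act {ι : Type} (d : ι → ℤ) (n m : ℕ) {i j k : ℤ} (h : i + n = j) (h' : j + m = k)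
    (h'' : i + (n + m : ℕ) = k) (v : coeffs d i) :
    freeAct d m h' (freeAct d n h v) = ((n + m).choose n) • freeAct d (n + m) h'' v := by
  apply Subtype.ext
  rw [AddSubgroup.coe_nsmul]
  funext t
  rw [Pi.smul_apply, nsmul_eq_mul]
  show ((k - d t).toNat.choose m : ℤ) * (((j - d t).toNat.choose n : ℤ) * v.1 t) =
      ((n + m).choose n : ℤ) * (((k - d t).toNat.choose (n + m) : ℤ) * v.1 t)
  by_cases ht : i < d t
  · have : v.1 t = 0 := v.2 t ht
    simp [this]
  · push Not at ht
    obtain ⟨a, ha⟩ := Int.eq_ofNat_of_zero_le (sub_nonneg.mpr ht)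
    have h1 : (j - d t).toNat = a + n := by omega
    have h2 : (k - d t).toNat = a + n + m := by omega
    have key : (a + n + m).choose m * (a + n).choose n =
        (n + m).choose n * (a + n + m).choose (n + m) := by
      have := Nat.choose_mul (n := a + n + m) (k := n + m) (s := m) (by omega)
      rw [show a + n + m - m = a + n by omega, show n + m - m = n by omega] at this
      rw [← this, mul_comm]
      congr 1
      exact (Nat.choose_symm_add).symm
    have key' := congrArg (fun x : ℕ => (x : ℤ)) key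
    push_cast at key'
    rw [h1, h2]
    linear_combination (v.1 t) * key'

/-- The finite direct sum `⨁_t D[-d_t]` of shifted free modules. Its component of degree `j` has the
basis `x^{[j - d_t]} e_t` for the `t` with `d_t ≤ j`; we write an element as its vector of
coefficients `(c_t)`, with `c_t = 0` when `j < d_t`. -/
def free {ι : Type} [Fintype ι] (d : ι → ℤ) : GrMod where
  comp j := coeffs d j
  act := freeAct d
  act_add := freeAct_add d
  act_zero := freeAct_zero d
  act_act := freeAct_act d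

/-- Finitely presented graded modules: the cokernels of maps between finite direct sums of shifted
free modules. -/
def IsFinitelyPresented (N : GrMod) : Prop :=
  ∃ (p q : ℕ) (d : Fin p → ℤ) (e : Fin q → ℤ) (f : Hom (free e) (free d)), Isomorphic f.coker N

/-- `N` is a weak fp-envelope of `M`. -/
def IsWeakFpEnvelope (N M : GrMod) : Prop :=
  IsFinitelyPresented N ∧ ∃ n : ℤ, Isomorphic (trunc n M).toGrMod (trunc n N).toGrMod

/-! ## The example -/

/-- Degrees of the generators `e`, `g`. -/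
def gdeg : Fin 2 → ℤ := ![0, 4]

/-- Degrees of the relations `x^{[1]} e`, `x^{[1]} g - a x^{[5]} e`. -/
def rdeg : Fin 2 → ℤ := ![1, 5]

/-- The map on coefficients: `(s, t) ↦ (j s - a (j choose 5) t, (j - 4) t)`. -/
def relFun (a : ℤ) (j : ℤ) (c : Fin 2 → ℤ) : Fin 2 → ℤ :=
  ![j * c 0 - a * (j.toNat.choose 5 : ℤ) * c 1, (j - 4) * c 1]

lemma relFun_mem (a j : ℤ) (c : coeffs rdeg j) : relFun a j c.1 ∈ coeffs gdeg j := by
  intro t ht
  have h0 := c.2 0
  have h1 := c.2 1
  fin_cases t
  · simp only [gdeg, Fin.zero_eta, Matrix.cons_val_zero] at ht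
    simp only [rdeg, Matrix.cons_val_zero, Matrix.cons_val_one] at h0 h1
    simp [relFun, h0 (by omega), h1 (by omega)]
  · simp only [gdeg, Fin.mk_one, Matrix.cons_val_one] at ht
    simp only [rdeg, Matrix.cons_val_zero, Matrix.cons_val_one] at h0 h1
    have : c.1 1 = 0 := h1 (by simp at ht; omega)
    simp [relFun, this]

/-- The relation map. -/
def rel (a : ℤ) : Hom (free rdeg) (free gdeg) where
  map j := fun c => ⟨relFun a j c.1, relFun_mem a j c⟩
  map_add := by
    intro j x y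
    apply Subtype.ext
    show relFun a j (x.1 + y.1) = relFun a j x.1 + relFun a j y.1
    funext t; fin_cases t <;> simp [relFun] <;> ring
  comm := by
    intro n i j h v
    apply Subtype.ext
    funext t
    have h0 := v.2 0
    have h1 := v.2 1
    simp only [rdeg, Matrix.cons_val_zero, Matrix.cons_val_one] at h0 h1
    show relFun a j (fun t => ((j - rdeg t).toNat.choose n : ℤ) * v.1 t) t =
      ((j - gdeg t).toNat.choose n : ℤ) * relFun a i v.1 t
    fin_cases t
    · simp only [relFun, gdeg, rdeg, Fin.zero_eta, Matrix.cons_val_zero, Matrix.cons_val_one,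
        sub_zero]
      have e0 : j * (((j - 1).toNat.choose n : ℤ) * v.1 0) =
          (j.toNat.choose n : ℤ) * (i * v.1 0) := by
        by_cases hi : i < 1
        · rw [h0 hi]; simp
        · obtain ⟨a, rfl⟩ := Int.eq_ofNat_of_zero_le (show 0 ≤ i by omega)
          subst h
          have := multi (a + n) 1 n
          simp only [Nat.choose_one_right] at this
          rw [show a + n - n = a by omega] at this
          have this' := congrArg (fun x : ℕ => (x : ℤ)) this
          push_cast at this'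
          rw [show ((a : ℤ) + n - 1).toNat = a + n - 1 by omega,
            show ((a : ℤ) + n).toNat = a + n by omega]
          linear_combination (v.1 0) * this'
      have e1 : (j.toNat.choose 5 : ℤ) * (((j - 5).toNat.choose n : ℤ) * v.1 1) =
          (j.toNat.choose n : ℤ) * ((i.toNat.choose 5 : ℤ) * v.1 1) := by
        by_cases hi : i < 5
        · rw [h1 hi]; simp
        · obtain ⟨a, rfl⟩ := Int.eq_ofNat_of_zero_le (show 0 ≤ i by omega)
          subst h
          have := multi (a + n) 5 n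
          rw [show a + n - n = a by omega] at this
          have this' := congrArg (fun x : ℕ => (x : ℤ)) this
          push_cast at this'
          rw [show ((a : ℤ) + n - 5).toNat = a + n - 5 by omega,
            show ((a : ℤ) + n).toNat = a + n by omega, show ((a : ℤ)).toNat = a by omega]
          linear_combination (v.1 1) * this'
      linear_combination e0 - a * e1
    · simp only [relFun, gdeg, rdeg, Fin.mk_one, Matrix.cons_val_zero, Matrix.cons_val_one]
      by_cases hi : i < 5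
      · rw [h1 hi]; simp
      · obtain ⟨a, rfl⟩ := Int.eq_ofNat_of_zero_le (show 0 ≤ i by omega)
        subst h
        have := multi (a + n - 4) 1 n
        simp only [Nat.choose_one_right] at this
        rw [show a + n - 4 - n = a - 4 by omega, show a + n - 4 - 1 = a + n - 5 by omega] at this
        have this' := congrArg (fun x : ℕ => (x : ℤ)) this
        push_cast [Nat.cast_sub (show 4 ≤ a + n by omega), Nat.cast_sub (show 4 ≤ a by omega)]
          at this'
        rw [show ((a : ℤ) + n - 5).toNat = a + n - 5 by omega,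
          show ((a : ℤ) + n - 4).toNat = a + n - 4 by omega]
        linear_combination (v.1 1) * this'

/-- The module `N_a = ⟨e, g | x^{[1]} e = 0, x^{[1]} g = a x^{[5]} e⟩`, `deg e = 0`, `deg g = 4`. -/
def N (a : ℤ) : GrMod := (rel a).coker


lemma Isomorphic.refl (A : GrMod) : Isomorphic A A :=
  ⟨⟨fun _ => id, fun _ _ _ => rfl, fun _ _ _ _ _ => rfl⟩, fun _ => Function.bijective_id⟩

lemma fp (a : ℤ) : IsFinitelyPresented (N a) := ⟨2, 2, gdeg, rdeg, rel a, Isomorphic.refl _⟩

/-! ### Arithmetic of `u_j = 2 - 5^{j!}` -/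

lemma dvd_sub_pow (g a b : ℕ) (hg : 0 < g) (h : g ≤ a) (hab : a ≤ b) :
    (g : ℤ) ∣ 5 ^ b.factorial - 5 ^ a.factorial := by
  obtain ⟨e, g', hg', rfl⟩ := Nat.exists_eq_pow_mul_and_not_dvd (n := g) (by omega) 5 (by norm_num)
  have hg'0 : 0 < g' := Nat.pos_of_mul_pos_left hg
  have hle : a.factorial ≤ b.factorial := Nat.factorial_le hab
  have h1 : (5 : ℤ) ^ b.factorial - 5 ^ a.factorial =
      5 ^ a.factorial * (5 ^ (b.factorial - a.factorial) - 1) := by
    rw [mul_sub, ← pow_add, Nat.add_sub_cancel' hle, mul_one]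
  rw [h1]
  push_cast
  apply mul_dvd_mul
  · apply pow_dvd_pow
    have h2 : e < 5 ^ e := Nat.lt_pow_self (by norm_num)
    have h3 : 5 ^ e ≤ 5 ^ e * g' := Nat.le_mul_of_pos_right _ hg'0
    have h4 : a ≤ a.factorial := Nat.self_le_factorial a
    omega
  · have hcop : Nat.Coprime 5 g' := (Nat.Prime.coprime_iff_not_dvd (by norm_num)).mpr hg'
    have hphi : g'.totient ∣ b.factorial - a.factorial := by
      have h3 : g' ≤ 5 ^ e * g' := Nat.le_mul_of_pos_left _ (by positivity)
      have h4 : g'.totient ≤ a := (Nat.totient_le g').trans (h3.trans h)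
      have h5 : g'.totient ∣ a.factorial := Nat.dvd_factorial (Nat.totient_pos.mpr hg'0) h4
      have h6 : g'.totient ∣ b.factorial :=
        Nat.dvd_factorial (Nat.totient_pos.mpr hg'0) (h4.trans hab)
      exact Nat.dvd_sub h6 h5
    obtain ⟨q, hq⟩ := hphi
    have h7 : 5 ^ (b.factorial - a.factorial) ≡ 1 [MOD g'] := by
      rw [hq, pow_mul]
      simpa using (Nat.ModEq.pow_totient hcop).pow q
    have h8 := (Nat.modEq_iff_dvd.mp h7.symm)
    push_cast at h8
    exact h8

/-- The units `u_j`. -/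
def u (j : ℤ) : ℤ := 2 - 5 ^ (j.toNat.factorial)

lemma u_coprime (J : ℕ) (hJ : 0 < J) : IsCoprime (u J) (J : ℤ) := by
  rw [Int.isCoprime_iff_gcd_eq_one]
  by_contra hne
  obtain ⟨p, hp, hpd⟩ := Nat.exists_prime_and_dvd hne
  have h1 : (p : ℤ) ∣ u J := (Int.natCast_dvd_natCast.mpr hpd).trans (Int.gcd_dvd_left _ _)
  have h2 : (p : ℤ) ∣ (J : ℤ) := (Int.natCast_dvd_natCast.mpr hpd).trans (Int.gcd_dvd_right _ _)
  have h3 : p ∣ J := Int.natCast_dvd_natCast.mp h2
  unfold u at h1
  rw [Int.toNat_natCast] at h1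
  have hpos : 0 < J.factorial := Nat.factorial_pos J
  by_cases h5 : p = 5
  · subst h5
    have h6 : ((5 : ℕ) : ℤ) ∣ 5 ^ J.factorial := by
      push_cast
      exact dvd_pow_self _ hpos.ne'
    have h7 := dvd_add h1 h6
    norm_num at h7
  · have hcop : Nat.Coprime 5 p := (Nat.coprime_primes (by norm_num) hp).mpr (Ne.symm h5)
    have hle : p ≤ J := Nat.le_of_dvd hJ h3
    have hphi : p.totient ∣ J.factorial :=
      Nat.dvd_factorial (Nat.totient_pos.mpr hp.pos) ((Nat.totient_le p).trans hle)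
    obtain ⟨q, hq⟩ := hphi
    have h7 : 5 ^ J.factorial ≡ 1 [MOD p] := by
      rw [hq, pow_mul]
      simpa using (Nat.ModEq.pow_totient hcop).pow q
    have h8 := (Nat.modEq_iff_dvd.mp h7.symm)
    push_cast at h8
    have h9 := dvd_add h1 h8
    have h10 : (p : ℤ) ∣ 1 := by
      have h11 : (2 - 5 ^ J.factorial + (5 ^ J.factorial - 1) : ℤ) = 1 := by ring
      rwa [h11] at h9
    have h11 : p ∣ 1 := by exact_mod_cast h10
    exact hp.one_lt.ne' (Nat.dvd_one.mp h11)

lemma five_choose (J : ℕ) : 5 * J.choose 5 = J * (J - 1).choose 4 := by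
  rcases J with _ | J
  · simp
  · have := Nat.add_one_mul_choose_eq J 4
    rw [Nat.add_sub_cancel, this]
    ring

/-- compatibility -/
lemma u_compat (i n : ℕ) (hi : 0 < i) :
    ((i + n : ℕ) : ℤ) ∣ ((i + n).choose n : ℤ) * (u (i + n : ℕ) - u i) := by
  set g := Nat.gcd i (i + n) with hg
  have hg0 : 0 < g := Nat.gcd_pos_of_pos_left _ hi
  have hgi : g ∣ i := Nat.gcd_dvd_left _ _
  have hgj : g ∣ i + n := Nat.gcd_dvd_right _ _
  have h1 : (g : ℤ) ∣ u (i + n : ℕ) - u i := by
    have := dvd_sub_pow g i (i + n) hg0 (Nat.le_of_dvd hi hgi) (Nat.le_add_right i n)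
    unfold u
    rw [Int.toNat_natCast, Int.toNat_natCast]
    have h2 := (dvd_neg (α := ℤ)).mpr this
    have h3 : (2 - 5 ^ (i + n).factorial - (2 - 5 ^ i.factorial) : ℤ) =
      -(5 ^ (i + n).factorial - 5 ^ i.factorial) := by ring
    rw [h3]
    exact h2
  have h3 : (i + n) / g ∣ (i + n).choose n := by
    have h4 : (i + n) * (i + n - 1).choose (i - 1) = i * (i + n).choose n := by
      obtain ⟨i', rfl⟩ : ∃ i', i = i' + 1 := ⟨i - 1, by omega⟩
      have h5 := Nat.add_one_mul_choose_eq (i' + n) i'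
      have h6 : (i' + 1 + n).choose n = (i' + n + 1).choose (i' + 1) := by
        rw [show i' + 1 + n = i' + n + 1 by ring]
        rw [← Nat.choose_symm (show n ≤ i' + n + 1 by omega)]
        congr 1
        omega
      rw [h6, show i' + 1 + n = i' + n + 1 by ring, Nat.add_sub_cancel, Nat.add_sub_cancel, h5]
      ring
    have h5 : (i + n) / g ∣ (i / g) * (i + n).choose n := by
      refine ⟨(i + n - 1).choose (i - 1), ?_⟩
      apply Nat.eq_of_mul_eq_mul_left hg0
      rw [← mul_assoc, ← mul_assoc, Nat.mul_div_cancel' hgi, Nat.mul_div_cancel' hgj, h4]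
    have h6 : Nat.Coprime ((i + n) / g) (i / g) := by
      rw [Nat.coprime_comm]
      exact Nat.coprime_div_gcd_div_gcd hg0
    exact h6.dvd_of_dvd_mul_left h5
  have h7 : ((i + n : ℕ) : ℤ) = (((i + n) / g : ℕ) : ℤ) * (g : ℤ) := by
    rw [← Nat.cast_mul, Nat.div_mul_cancel hgj]
  refine (dvd_of_eq h7).trans ?_
  exact mul_dvd_mul (by exact_mod_cast h3) h1

/-! ### The isomorphism of the truncations -/

/-- `(s, t) ↦ (u_j s, t)`. -/
def psiFun (j : ℤ) (c : Fin 2 → ℤ) : Fin 2 → ℤ := ![u j * c 0, c 1]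

/-- `(s, t) ↦ (u_j s, t)` on the free module. -/
def psi (j : ℤ) : (free gdeg).comp j →+ (free gdeg).comp j where
  toFun c := ⟨psiFun j c.1, by
    intro t ht
    have := c.2 t ht
    fin_cases t
    · simp only [Fin.zero_eta] at this
      simp [psiFun, this]
    · simp only [Fin.mk_one] at this
      simp [psiFun, this]⟩
  map_zero' := by
    apply Subtype.ext
    show psiFun j (0 : Fin 2 → ℤ) = 0
    funext t; fin_cases t <;> simp [psiFun]
  map_add' := by
    intro x y
    apply Subtype.ext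
    show psiFun j (x.1 + y.1) = psiFun j x.1 + psiFun j y.1
    funext t; fin_cases t <;> simp [psiFun] <;> ring

/-- Membership in the relations. -/
lemma mem_rel {a j : ℤ} {c : (free gdeg).comp j} :
    c ∈ (rel a).range.comp j ↔ ∃ α β : ℤ, (j < 1 → α = 0) ∧ (j < 5 → β = 0) ∧
      c.1 0 = j * α - a * (j.toNat.choose 5 : ℤ) * β ∧ c.1 1 = (j - 4) * β := by
  constructor
  · rintro ⟨v, rfl⟩
    have h0 := v.2 0
    have h1 := v.2 1
    simp only [rdeg, Matrix.cons_val_zero, Matrix.cons_val_one] at h0 h1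
    exact ⟨v.1 0, v.1 1, h0, h1, rfl, rfl⟩
  · rintro ⟨α, β, h0, h1, h2, h3⟩
    refine ⟨⟨![α, β], ?_⟩, ?_⟩
    · intro t ht
      fin_cases t
      · simp only [Fin.zero_eta, rdeg, Matrix.cons_val_zero] at ht ⊢
        exact h0 ht
      · simp only [Fin.mk_one, rdeg, Matrix.cons_val_one] at ht ⊢
        exact h1 ht
    · apply Subtype.ext
      show relFun a j ![α, β] = c.1
      funext t
      fin_cases t
      · simp only [relFun, Fin.zero_eta, Matrix.cons_val_zero, Matrix.cons_val_one]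
        exact h2.symm
      · simp only [relFun, Fin.mk_one, Matrix.cons_val_one]
        exact h3.symm

lemma psi_rel (j : ℤ) :
    (rel 1).range.comp j ≤ AddSubgroup.comap (psi j) ((rel 2).range.comp j) := by
  intro c hc
  rw [AddSubgroup.mem_comap, mem_rel]
  obtain ⟨α, β, h0, h1, h2, h3⟩ := mem_rel.mp hc
  refine ⟨u j * α + 5 ^ (j.toNat.factorial - 1) * ((j.toNat - 1).choose 4 : ℤ) * β, β, ?_, h1,
    ?_, h3⟩
  · intro hj
    rw [h0 hj, h1 (by omega)]; simp
  · show u j * c.1 0 = _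
    rw [h2]
    have hpos : 0 < j.toNat.factorial := Nat.factorial_pos _
    have h5 : (5 : ℤ) ^ j.toNat.factorial = 5 ^ (j.toNat.factorial - 1) * 5 := by
      rw [← pow_succ, Nat.sub_add_cancel hpos]
    by_cases hj : j < 5
    · rw [h1 hj]; ring
    · have h6 := five_choose j.toNat
      have h7 : (5 : ℤ) * (j.toNat.choose 5 : ℤ) = j * ((j.toNat - 1).choose 4 : ℤ) := by
        have h8 := congrArg (fun x : ℕ => (x : ℤ)) h6
        push_cast at h8
        rw [h8, Int.toNat_of_nonneg (by omega)]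
      unfold u
      rw [h5]
      linear_combination ((5 : ℤ) ^ (j.toNat.factorial - 1)) * β * h7

/-- The induced maps `N_1 → N_2` in each degree. -/
def Psi (j : ℤ) : (N 1).comp j →+ (N 2).comp j :=
  QuotientAddGroup.map _ _ (psi j) (psi_rel j)

lemma Psi_comm (n : ℕ) {i j : ℤ} (hi : 5 ≤ i) (h : i + n = j) (v : (N 1).comp i) :
    Psi j ((N 1).act n h v) = (N 2).act n h (Psi i v) := by
  obtain ⟨c, rfl⟩ := QuotientAddGroup.mk_surjective v
  show (QuotientAddGroup.mk (psi j ((free gdeg).act n h c)) : (N 2).comp j) =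
    QuotientAddGroup.mk ((free gdeg).act n h (psi i c))
  rw [QuotientAddGroup.eq, mem_rel]
  obtain ⟨a, rfl⟩ := Int.eq_ofNat_of_zero_le (show 0 ≤ i by omega)
  subst h
  obtain ⟨q, hq⟩ := u_compat a n (by omega)
  push_cast at hq
  refine ⟨-q * c.1 0, 0, fun hj => by omega, fun _ => rfl, ?_, ?_⟩
  · show -(u ((a : ℤ) + n) * (((((a : ℤ) + n) - gdeg 0).toNat.choose n : ℤ) * c.1 0)) +
      ((((a : ℤ) + n) - gdeg 0).toNat.choose n : ℤ) * (u a * c.1 0) = _
    have h1 : (((a : ℤ) + n) - gdeg 0).toNat = a + n := by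
      simp only [gdeg, Matrix.cons_val_zero]; omega
    rw [h1]
    linear_combination (-(c.1 0)) * hq
  · show -(((((a : ℤ) + n) - gdeg 1).toNat.choose n : ℤ) * c.1 1) +
      ((((a : ℤ) + n) - gdeg 1).toNat.choose n : ℤ) * (c.1 1) = _
    ring

lemma Psi_bijective {j : ℤ} (hj : 5 ≤ j) : Function.Bijective (Psi j) := by
  obtain ⟨J, rfl⟩ := Int.eq_ofNat_of_zero_le (show 0 ≤ j by omega)
  have hcop := u_coprime J (by omega)
  have h5 : (5 : ℤ) ^ J.factorial = 5 ^ (J.factorial - 1) * 5 := by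
    rw [← pow_succ, Nat.sub_add_cancel (Nat.factorial_pos _)]
  have h6 : (5 : ℤ) * (J.choose 5 : ℤ) = J * ((J - 1).choose 4 : ℤ) := by
    have h8 := congrArg (fun x : ℕ => (x : ℤ)) (five_choose J)
    push_cast at h8
    exact h8
  constructor
  · rw [injective_iff_map_eq_zero]
    intro v hv
    obtain ⟨c, rfl⟩ := QuotientAddGroup.mk_surjective v
    have hv' : (QuotientAddGroup.mk (psi J c) : (N 2).comp J) = 0 := hv
    rw [QuotientAddGroup.eq_zero_iff, mem_rel] at hv'
    obtain ⟨α, β, -, -, h2, h3⟩ := hv'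
    have h2' : u J * c.1 0 = J * α - 2 * (((J : ℤ).toNat).choose 5 : ℤ) * β := h2
    have h3' : c.1 1 = (J - 4) * β := h3
    rw [Int.toNat_natCast] at h2'
    show (QuotientAddGroup.mk c : (N 1).comp J) = 0
    rw [QuotientAddGroup.eq_zero_iff, mem_rel]
    have hdvd : (J : ℤ) ∣ u J * (c.1 0 + (J.choose 5 : ℤ) * β) := by
      refine ⟨α - 5 ^ (J.factorial - 1) * ((J - 1).choose 4 : ℤ) * β, ?_⟩
      have h9 : u J = 2 - 5 ^ (J.factorial - 1) * 5 := by
        unfold u; rw [Int.toNat_natCast, h5]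
      linear_combination h2' + (J.choose 5 : ℤ) * β * h9 -
        (5 : ℤ) ^ (J.factorial - 1) * β * h6
    obtain ⟨γ, hγ⟩ := hcop.symm.dvd_of_dvd_mul_left hdvd
    refine ⟨γ, β, fun h => by omega, fun h => by omega, ?_, h3'⟩
    rw [Int.toNat_natCast]
    linear_combination hγ
  · intro v
    obtain ⟨c, rfl⟩ := QuotientAddGroup.mk_surjective v
    obtain ⟨a, b, hab⟩ := hcop
    refine ⟨QuotientAddGroup.mk (⟨![a * c.1 0, c.1 1], ?_⟩ : (free gdeg).comp J), ?_⟩
    · intro t ht
      fin_cases t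
      · have : (J : ℤ) < 0 := ht
        omega
      · have : (J : ℤ) < 4 := ht
        omega
    · show (QuotientAddGroup.mk (psi J _) : (N 2).comp J) = QuotientAddGroup.mk c
      rw [QuotientAddGroup.eq, mem_rel]
      refine ⟨b * c.1 0, 0, fun h => by omega, fun _ => rfl, ?_, ?_⟩
      · show -(u J * (a * c.1 0)) + c.1 0 = _
        linear_combination (-(c.1 0)) * hab
      · show -(c.1 1) + c.1 1 = _
        ring

lemma trunc_iso : Isomorphic (trunc 5 (N 1)).toGrMod (trunc 5 (N 2)).toGrMod := by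
  refine ⟨⟨fun j v => ⟨Psi j v.1, ?_⟩, ?_, ?_⟩, ?_⟩
  · rcases v.2 with h | h
    · exact Or.inl h
    · right; rw [h]; exact map_zero _
  · intro j x y
    apply Subtype.ext
    exact map_add (Psi j) x.1 y.1
  · intro n i j h v
    apply Subtype.ext
    show Psi j ((N 1).act n h v.1) = (N 2).act n h (Psi i v.1)
    rcases v.2 with hi | hv
    · exact Psi_comm n hi h v.1
    · rw [hv, map_zero]
      have h1 := map_zero ((N 1).actHom n h)
      have h2 := map_zero ((N 2).actHom n h)
      exact (congrArg (Psi j) h1).trans ((map_zero (Psi j)).trans h2.symm)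
  · intro j
    constructor
    · intro x y hxy
      have hxy' : Psi j x.1 = Psi j y.1 := congrArg Subtype.val hxy
      apply Subtype.ext
      rcases x.2 with hj | hx
      · exact (Psi_bijective hj).1 hxy'
      · rcases y.2 with hj | hy
        · exact (Psi_bijective hj).1 hxy'
        · rw [hx, hy]
    · intro y
      rcases y.2 with hj | hy
      · obtain ⟨x, hx⟩ := (Psi_bijective hj).2 y.1
        exact ⟨⟨x, Or.inl hj⟩, Subtype.ext hx⟩
      · refine ⟨⟨0, Or.inr rfl⟩, Subtype.ext ?_⟩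
        rw [hy]
        exact map_zero (Psi j)

/-! ### The modules `N_1` and `N_2` are not isomorphic -/

/-- The quotient map. -/
def mk (a j : ℤ) : (free gdeg).comp j →+ (N a).comp j := QuotientAddGroup.mk' _

lemma mk_act (a : ℤ) (n : ℕ) {i j : ℤ} (h : i + n = j) (c : (free gdeg).comp i) :
    mk a j ((free gdeg).act n h c) = (N a).act n h (mk a i c) := rfl

lemma mk_surj (a j : ℤ) (v : (N a).comp j) : ∃ c, mk a j c = v :=
  QuotientAddGroup.mk_surjective v

lemma mk_eq {a j : ℤ} {c c' : (free gdeg).comp j} :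
    mk a j c = mk a j c' ↔ -c + c' ∈ (rel a).range.comp j := QuotientAddGroup.eq

/-- The coefficients. -/
def co (j : ℤ) (t : Fin 2) : (free gdeg).comp j →+ ℤ where
  toFun c := c.1 t
  map_zero' := rfl
  map_add' _ _ := rfl

lemma co_ext {j : ℤ} {c c' : (free gdeg).comp j} (h0 : co j 0 c = co j 0 c')
    (h1 : co j 1 c = co j 1 c') : c = c' := by
  apply Subtype.ext
  funext t
  fin_cases t
  · exact h0
  · exact h1

lemma co_act (n : ℕ) {i j : ℤ} (h : i + n = j) (t : Fin 2) (c : (free gdeg).comp i) :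
    co j t ((free gdeg).act n h c) = ((j - gdeg t).toNat.choose n : ℤ) * co i t c := rfl

lemma mk_eq_iff {a j : ℤ} {c c' : (free gdeg).comp j} :
    mk a j c = mk a j c' ↔ ∃ α β : ℤ, (j < 1 → α = 0) ∧ (j < 5 → β = 0) ∧
      -co j 0 c + co j 0 c' = j * α - a * (j.toNat.choose 5 : ℤ) * β ∧
      -co j 1 c + co j 1 c' = (j - 4) * β := by
  rw [mk_eq, mem_rel]
  rfl

/-- The generator `e`. -/
def genE : (free gdeg).comp 0 := ⟨![1, 0], by
  intro t ht
  fin_cases t
  · simp [gdeg] at ht
  · simp⟩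

/-- The generator `g`. -/
def genG : (free gdeg).comp 4 := ⟨![0, 1], by
  intro t ht
  fin_cases t
  · simp
  · simp [gdeg] at ht⟩

lemma co_genE0 : co 0 0 genE = 1 := rfl
lemma co_genE1 : co 0 1 genE = 0 := rfl
lemma co_genG0 : co 4 0 genG = 0 := rfl
lemma co_genG1 : co 4 1 genG = 1 := rfl

lemma not_iso : ¬ Isomorphic (N 1) (N 2) := by
  rintro ⟨f, hf⟩
  have fz : ∀ (j : ℤ) (z : ℤ) (v : (N 1).comp j), f.map j (z • v) = z • f.map j v :=
    fun j z v => map_zsmul (f.hom j) z v
  obtain ⟨c, hc⟩ := mk_surj 2 0 (f.map 0 (mk 1 0 genE))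
  obtain ⟨d, hd⟩ := mk_surj 2 4 (f.map 4 (mk 1 4 genG))
  have hc1 : co 0 1 c = 0 := c.2 1 (by simp [gdeg])
  have h04 : (0 : ℤ) + (4 : ℕ) = 4 := by norm_num
  have h05 : (0 : ℤ) + (5 : ℕ) = 5 := by norm_num
  have h45 : (4 : ℤ) + (1 : ℕ) = 5 := by norm_num
  have g0 : gdeg 0 = 0 := rfl
  have g1 : gdeg 1 = 4 := rfl
  -- `f (e) = ε e` with `ε = ± 1`
  have hunit0 : ∃ r : ℤ, r * co 0 0 c = 1 := by
    obtain ⟨z, hz⟩ := (hf 0).2 (mk 2 0 genE)
    obtain ⟨z, rfl⟩ := mk_surj 1 0 z
    have hz1 : co 0 1 z = 0 := z.2 1 (by simp [gdeg])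
    have hz2 : z = co 0 0 z • genE := by
      apply co_ext
      · rw [map_zsmul, co_genE0]; simp
      · rw [map_zsmul, co_genE1, hz1]; simp
    have hz3 : f.map 0 (mk 1 0 z) = mk 2 0 (co 0 0 z • c) := by
      conv_lhs => rw [hz2]
      rw [map_zsmul, map_zsmul, fz, hc]
    rw [hz3, mk_eq_iff] at hz
    obtain ⟨α, β, h0, h1, h2, -⟩ := hz
    rw [h0 (by norm_num), h1 (by norm_num), map_zsmul, co_genE0, smul_eq_mul] at h2
    exact ⟨co 0 0 z, by linarith⟩
  have hunit4 : ∃ r : ℤ, r * co 4 1 d = 1 := by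
    obtain ⟨z, hz⟩ := (hf 4).2 (mk 2 4 genG)
    obtain ⟨z, rfl⟩ := mk_surj 1 4 z
    have hz2 : z = co 4 0 z • (free gdeg).act 4 h04 genE + co 4 1 z • genG := by
      apply co_ext
      · rw [map_add, map_zsmul, map_zsmul, co_act, co_genE0, co_genG0, g0]
        simp
      · rw [map_add, map_zsmul, map_zsmul, co_act, co_genE1, co_genG1, g1]
        simp
    have hz3 : f.map 4 (mk 1 4 z) =
        mk 2 4 (co 4 0 z • (free gdeg).act 4 h04 c + co 4 1 z • d) := by
      conv_lhs => rw [hz2]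
      rw [map_add, map_zsmul, map_zsmul, f.map_add, fz, fz, map_add, map_zsmul,
        map_zsmul, mk_act, mk_act, f.comm, hc, hd]
    rw [hz3, mk_eq_iff] at hz
    obtain ⟨α, β, h0, h1, -, h2⟩ := hz
    rw [h1 (by norm_num), map_add, map_zsmul, map_zsmul, co_genG1, co_act, hc1, smul_eq_mul,
      smul_eq_mul] at h2
    exact ⟨co 4 1 z, by linarith⟩
  -- the relation `x^{[1]} g = x^{[5]} e` in `N_1`
  have hrel : (N 1).act 1 h45 (mk 1 4 genG) = (N 1).act 5 h05 (mk 1 0 genE) := by
    rw [← mk_act, ← mk_act, mk_eq_iff]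
    refine ⟨0, -1, fun h => rfl, fun h => by omega, ?_, ?_⟩
    · rw [co_act, co_act, co_genG0, co_genE0, g0]
      simp
    · rw [co_act, co_act, co_genG1, co_genE1, g1]
      simp
  have h1 := congrArg (f.map 5) hrel
  rw [f.comm, f.comm, ← hc, ← hd, ← mk_act, ← mk_act, mk_eq_iff] at h1
  obtain ⟨α, β, -, -, h3, h4⟩ := h1
  rw [co_act, co_act, g0] at h3
  rw [co_act, co_act, g1, hc1] at h4
  have e1 : ((((5 : ℤ) - 0).toNat.choose 1 : ℕ) : ℤ) = 5 := by simp
  have e2 : ((((5 : ℤ) - 0).toNat.choose 5 : ℕ) : ℤ) = 1 := by simp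
  have e3 : ((((5 : ℤ) - 4).toNat.choose 1 : ℕ) : ℤ) = 1 := by simp
  have e4 : (((5 : ℤ).toNat.choose 5 : ℕ) : ℤ) = 1 := by simp
  rw [e1, e2, e4] at h3
  rw [e3] at h4
  obtain ⟨r, hr⟩ := hunit0
  obtain ⟨r', hr'⟩ := hunit4
  rcases Int.eq_one_or_neg_one_of_mul_eq_one' hr with ⟨-, h5⟩ | ⟨-, h5⟩ <;>
  rcases Int.eq_one_or_neg_one_of_mul_eq_one' hr' with ⟨-, h6⟩ | ⟨-, h6⟩ <;>
  rw [h5] at h3 <;> rw [h6] at h4 <;> omega

/-- Over `ℤ`, weak fp-envelopes over the divided power algebra are not unique. -/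
theorem result :
    ¬ ∀ M N N' : GrMod, IsWeakFpEnvelope N M → IsWeakFpEnvelope N' M → Isomorphic N N' := by
  intro h
  have hrefl : ∃ n : ℤ, Isomorphic (trunc n (N 1)).toGrMod (trunc n (N 1)).toGrMod :=
    ⟨5, Isomorphic.refl _⟩
  exact not_iso (h (N 1) (N 1) (N 2) ⟨fp 1, hrefl⟩ ⟨fp 2, 5, trunc_iso⟩)

end Pool.Agent.Results.MP_c3bf79_al.EnvelopesNotUnique
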